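import Mathlib

set_option autoImplicit false
set_option linter.unusedSectionVars false

namespace Pool.Agent.H109R2.MS

open Finset

variable {G : Type} [Group G] [Fintype G] [DecidableEq G]

/-- In a finite group of odd order squaring is bijective. -/
theorem sq_bij (hodd : Odd (Fintype.card G)) : Function.Bijective (fun x : G => x ^ 2) := by
  have h : (Nat.card G).Coprime 2 := by
    rw [Nat.card_eq_fintype_card]
    exact hodd.coprime_two_right
  have := (powCoprime h).bijective
  exact this

theorem sq_unique (hodd : Odd (Fintype.card G)) (x y : G) :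
    (univ.filter (fun g : G => g * x⁻¹ * g = y)).card = 1 := by
  obtain ⟨s, hs, hs'⟩ := (sq_bij hodd).existsUnique (y * x⁻¹)
  rw [Finset.card_eq_one]
  refine ⟨s * x, ?_⟩
  ext g
  simp only [mem_filter, mem_univ, true_and, mem_singleton]
  constructor
  · intro h
    have h2 : (g * x⁻¹) ^ 2 = y * x⁻¹ := by
      rw [pow_two, ← h]; group
    have := hs' (g * x⁻¹) h2
    rw [← this]; group
  · intro h
    have hs2 : s ^ 2 = y * x⁻¹ := hs
    subst h
    have : s * x * x⁻¹ * (s * x) = s ^ 2 * x := by
      rw [pow_two]; group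
    rw [this, hs2]; group

variable {r : ℕ}

theorem sum_count (hodd : Odd (Fintype.card G)) (χ : G → Fin r) (i : Fin r) :
    ∑ g : G, (univ.filter (fun x : G => χ x = i ∧ χ (g * x⁻¹ * g) = i)).card
      = (univ.filter (fun x : G => χ x = i)).card ^ 2 := by
  have h1 : ∀ g : G, (univ.filter (fun x : G => χ x = i ∧ χ (g * x⁻¹ * g) = i)).card
      = ∑ x : G, ∑ y : G, if (χ x = i ∧ χ y = i) ∧ g * x⁻¹ * g = y then 1 else 0 := by
    intro g
    rw [Finset.card_filter]
    refine Finset.sum_congr rfl fun x _ => ?_
    rw [Finset.sum_eq_single (g * x⁻¹ * g)]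
    · simp
    · intro b _ hb
      rw [if_neg]
      rintro ⟨_, h⟩
      exact hb h.symm
    · intro h; exact absurd (mem_univ _) h
  simp_rw [h1]
  rw [Finset.sum_comm]
  have h2 : ∀ x : G, ∑ g : G, ∑ y : G, (if (χ x = i ∧ χ y = i) ∧ g * x⁻¹ * g = y then 1 else 0)
      = ∑ y : G, if (χ x = i ∧ χ y = i) then 1 else 0 := by
    intro x
    rw [Finset.sum_comm]
    refine Finset.sum_congr rfl fun y _ => ?_
    by_cases hxy : χ x = i ∧ χ y = i
    · simp only [hxy, and_self, true_and, if_true]
      have := sq_unique hodd x y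
      rw [Finset.card_filter] at this
      exact this
    · simp [hxy]
  rw [Finset.sum_congr rfl (fun x _ => h2 x)]
  rw [pow_two, ← Finset.card_product]
  rw [← Finset.sum_product', Finset.univ_product_univ, ← Finset.card_filter]
  congr 1
  ext ⟨a, b⟩
  simp

theorem parity (hodd : Odd (Fintype.card G)) (χ : G → Fin r) (i : Fin r) (g : G) :
    (((univ.filter (fun x : G => χ x = i ∧ χ (g * x⁻¹ * g) = i)).erase g).card : ZMod 2) = 0 := by
  have h := Finset.sum_involution
    (s := (univ.filter (fun x : G => χ x = i ∧ χ (g * x⁻¹ * g) = i)).erase g)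
    (f := fun _ => (1 : ZMod 2)) (g := fun x _ => g * x⁻¹ * g) ?_ ?_ ?_ ?_
  · simpa using h
  · intro a ha
    decide
  · intro a ha _ hfix
    have hne : a ≠ g := (mem_erase.mp ha).1
    apply hne
    have h1 : (g * a⁻¹) ^ 2 = 1 ^ 2 := by
      rw [pow_two]
      have : g * a⁻¹ * (g * a⁻¹) = (g * a⁻¹ * g) * a⁻¹ := by group
      rw [this, hfix]; group
    have h2 : g * a⁻¹ = 1 := (sq_bij hodd).1 h1
    have h3 : g = a := by
      have := congrArg (· * a) h2
      simpa using this
    exact h3.symm
  · intro a ha
    simp only [mem_erase, mem_filter, mem_univ, true_and] at ha ⊢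
    obtain ⟨hne, h1, h2⟩ := ha
    refine ⟨?_, h2, ?_⟩
    · intro h
      apply hne
      have h3 : g * a⁻¹ * g = g := h
      have h4 : g * a⁻¹ = 1 := by
        have := congrArg (· * g⁻¹) h3
        simpa using this
      have h5 : g = a := by
        have := congrArg (· * a) h4
        simpa using this
      exact h5.symm
    · have : g * (g * a⁻¹ * g)⁻¹ * g = a := by group
      rw [this]; exact h1
  · intro a ha
    group

theorem main (hodd : Odd (Fintype.card G)) (hr : 1 < r) (χ : G → Fin r) :
    ∃ (g : G) (i : Fin r),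
      Fintype.card G < r ^ 2 * (univ.filter (fun x : G => χ x = i ∧ χ (g * x⁻¹ * g) = i)).card := by
  set n := Fintype.card G with hn
  have hnpos : 0 < n := Fintype.card_pos
  -- a colour class with at least n / r elements
  obtain ⟨i, hi⟩ : ∃ i : Fin r, n ≤ r * (univ.filter (fun x : G => χ x = i)).card := by
    by_contra hcon
    push Not at hcon
    have hsum : ∑ i : Fin r, (univ.filter (fun x : G => χ x = i)).card = n := by
      have := Finset.card_eq_sum_card_fiberwise (f := χ) (s := (univ : Finset G))
        (t := (univ : Finset (Fin r))) (by intro x _; simp)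
      rw [← this]; rfl
    have hlt : ∑ i : Fin r, r * (univ.filter (fun x : G => χ x = i)).card < ∑ i : Fin r, n := by
      apply Finset.sum_lt_sum_of_nonempty
      · exact ⟨⟨0, by omega⟩, mem_univ _⟩
      · intro i _; exact hcon i
    rw [← Finset.mul_sum, hsum] at hlt
    simp at hlt
  by_contra hcon
  push Not at hcon
  set N : G → ℕ := fun g => (univ.filter (fun x : G => χ x = i ∧ χ (g * x⁻¹ * g) = i)).card with hN
  have hle : ∀ g : G, r ^ 2 * N g ≤ n := fun g => hcon g i
  have hsum : ∑ g : G, N g = (univ.filter (fun x : G => χ x = i)).card ^ 2 := sum_count hodd χ i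
  set a := (univ.filter (fun x : G => χ x = i)).card with ha
  have htot : ∑ g : G, r ^ 2 * N g = (r * a) ^ 2 := by
    rw [← Finset.mul_sum, hsum]; ring
  have hup : ∑ g : G, r ^ 2 * N g ≤ n * n := by
    calc ∑ g : G, r ^ 2 * N g ≤ ∑ g : G, n := Finset.sum_le_sum (fun g _ => hle g)
      _ = n * n := by simp [hn]
  have hra : r * a = n := by
    have h1 : (r * a) ^ 2 ≤ n * n := by rw [← htot]; exact hup
    have h2 : r * a ≤ n := by
      by_contra h
      push Not at h
      nlinarith
    omega
  have hall : ∀ g : G, r ^ 2 * N g = n := by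
    have heq : ∑ g : G, r ^ 2 * N g = ∑ g : G, n := by
      rw [htot, hra]
      simp [hn, pow_two]
    intro g
    exact (Finset.sum_eq_sum_iff_of_le (fun g _ => hle g)).mp heq g (mem_univ g)
  have hr2 : 0 < r ^ 2 := by positivity
  have hconst : ∀ g h : G, N g = N h := by
    intro g h
    have := (hall g).trans (hall h).symm
    exact Nat.eq_of_mul_eq_mul_left hr2 this
  -- a member and a non-member
  have hapos : 0 < a := by
    rcases Nat.eq_zero_or_pos a with h | h
    · rw [h] at hra; omega
    · exact h
  obtain ⟨g, hg⟩ := Finset.card_pos.mp hapos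
  have hgi : χ g = i := by simpa using hg
  obtain ⟨h, hh⟩ : ∃ h : G, χ h ≠ i := by
    by_contra hno
    push Not at hno
    have : a = n := by
      rw [ha, hn, ← Finset.card_univ]
      congr 1
      ext x
      simp [hno x]
    rw [this] at hra
    have : 2 * n ≤ r * n := Nat.mul_le_mul_right n hr
    omega
  have pg := parity hodd χ i g
  have ph := parity hodd χ i h
  have eg : ((univ.filter (fun x : G => χ x = i ∧ χ (g * x⁻¹ * g) = i)).erase g).card + 1 = N g := by
    apply Finset.card_erase_add_one
    simp [hgi]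
  have eh : ((univ.filter (fun x : G => χ x = i ∧ χ (h * x⁻¹ * h) = i)).erase h).card = N h := by
    rw [Finset.erase_eq_of_notMem]
    simp [hh]
  rw [eh, hconst h g, ← eg] at ph
  push_cast at ph
  rw [pg] at ph
  revert ph
  decide

end Pool.Agent.H109R2.MS
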