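import Mathlib

set_option autoImplicit false
set_option linter.unusedSectionVars false

namespace Pool.Agent.H109R2.MS

open Finset

variable {G : Type} [Group G] [Fintype G]

/-- `1` when `p` and `p s²` have the same colour. -/
noncomputable def beta (χ : G → Fin 2) (p s : G) : ℕ := if χ p = χ (p * (s * s)) then 1 else 0

theorem beta_zero {χ : G → Fin 2} {p s : G} (h : beta χ p s = 0) : χ (p * (s * s)) = χ p + 1 := by
  unfold beta at h
  have hne : χ p ≠ χ (p * (s * s)) := by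
    intro h'
    simp [h'] at h
  revert hne
  generalize χ p = u
  generalize χ (p * (s * s)) = v
  revert u v
  decide

/-- The parity obstruction: `[a,b]c²` is a product of four squares and of three squares. -/
theorem seven (χ : G → Fin 2) (w a b c : G) :
    1 ≤ beta χ w a + beta χ (w * (a * a)) (a⁻¹ * b)
      + beta χ (w * (a * a) * (a⁻¹ * b * (a⁻¹ * b))) b⁻¹
      + beta χ (w * (a * a) * (a⁻¹ * b * (a⁻¹ * b)) * (b⁻¹ * b⁻¹)) c
      + beta χ w (a * b * a⁻¹ * b⁻¹ * c * a⁻¹)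
      + beta χ (w * (a * b * a⁻¹ * b⁻¹ * c * a⁻¹ * (a * b * a⁻¹ * b⁻¹ * c * a⁻¹))) (a * c⁻¹ * b * a)
      + beta χ (w * (a * b * a⁻¹ * b⁻¹ * c * a⁻¹ * (a * b * a⁻¹ * b⁻¹ * c * a⁻¹))
          * (a * c⁻¹ * b * a * (a * c⁻¹ * b * a))) (a⁻¹ * b⁻¹ * c) := by
  by_contra hcon
  have h1 : beta χ w a = 0 := by omega
  have h2 : beta χ (w * (a * a)) (a⁻¹ * b) = 0 := by omega
  have h3 : beta χ (w * (a * a) * (a⁻¹ * b * (a⁻¹ * b))) b⁻¹ = 0 := by omega
  have h4 : beta χ (w * (a * a) * (a⁻¹ * b * (a⁻¹ * b)) * (b⁻¹ * b⁻¹)) c = 0 := by omega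
  have h5 : beta χ w (a * b * a⁻¹ * b⁻¹ * c * a⁻¹) = 0 := by omega
  have h6 : beta χ (w * (a * b * a⁻¹ * b⁻¹ * c * a⁻¹ * (a * b * a⁻¹ * b⁻¹ * c * a⁻¹)))
      (a * c⁻¹ * b * a) = 0 := by omega
  have h7 : beta χ (w * (a * b * a⁻¹ * b⁻¹ * c * a⁻¹ * (a * b * a⁻¹ * b⁻¹ * c * a⁻¹))
          * (a * c⁻¹ * b * a * (a * c⁻¹ * b * a))) (a⁻¹ * b⁻¹ * c) = 0 := by omega
  have e1 := beta_zero h1
  have e2 := beta_zero h2
  have e3 := beta_zero h3
  have e4 := beta_zero h4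
  have e5 := beta_zero h5
  have e6 := beta_zero h6
  have e7 := beta_zero h7
  have key : w * (a * a) * (a⁻¹ * b * (a⁻¹ * b)) * (b⁻¹ * b⁻¹) * (c * c)
      = w * (a * b * a⁻¹ * b⁻¹ * c * a⁻¹ * (a * b * a⁻¹ * b⁻¹ * c * a⁻¹))
          * (a * c⁻¹ * b * a * (a * c⁻¹ * b * a)) * (a⁻¹ * b⁻¹ * c * (a⁻¹ * b⁻¹ * c)) := by
    group
  rw [key, e3, e2, e1, e7, e6, e5] at e4
  revert e4
  generalize χ w = u
  revert u
  decide

/-- Total number of pairs `(p,s)` with `p` and `p s²` of the same colour. -/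
noncomputable def total (χ : G → Fin 2) : ℕ := ∑ s : G, ∑ p : G, beta χ p s

theorem shift (F : G → ℕ) (u : G) : ∑ w : G, F (w * u) = ∑ w : G, F w :=
  Fintype.sum_equiv (Equiv.mulRight u) _ _ (fun _ => rfl)

/-- If, for fixed `a b`, the map `c ↦ v a b c` is a bijection, each step has `|G|² · total` same-coloured
pairs. -/
theorem step (χ : G → Fin 2) (u v : G → G → G → G)
    (hv : ∀ a b : G, Function.Bijective (v a b)) :
    ∑ a : G, ∑ b : G, ∑ c : G, ∑ w : G, beta χ (w * u a b c) (v a b c)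
      = Fintype.card G * (Fintype.card G * total χ) := by
  have h1 : ∀ a b : G, ∑ c : G, ∑ w : G, beta χ (w * u a b c) (v a b c) = total χ := by
    intro a b
    unfold total
    have h2 : ∀ c : G, ∑ w : G, beta χ (w * u a b c) (v a b c) = ∑ w : G, beta χ w (v a b c) := by
      intro c
      exact shift (fun w => beta χ w (v a b c)) (u a b c)
    rw [Finset.sum_congr rfl (fun c _ => h2 c)]
    exact Function.Bijective.sum_comp (hv a b) (fun s => ∑ w : G, beta χ w s)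
  simp_rw [h1]
  simp

theorem total_ge (χ : G → Fin 2) : Fintype.card G * Fintype.card G ≤ 7 * total χ := by
  set n := Fintype.card G with hn
  have hnpos : 0 < n := Fintype.card_pos
  -- uniformity in the variable c for the words where c occurs once, and in others otherwise
  have s1 : ∑ b : G, ∑ c : G, ∑ a : G, ∑ w : G, beta χ (w * 1) a = n * (n * total χ) :=
    step χ (fun _ _ _ => 1) (fun _ _ a => a) (fun _ _ => Function.bijective_id)
  have s2 : ∑ a : G, ∑ c : G, ∑ b : G, ∑ w : G, beta χ (w * (a * a)) (a⁻¹ * b) = n * (n * total χ) :=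
    step χ (fun a _ _ => a * a) (fun a _ b => a⁻¹ * b) (fun a _ => Group.mulLeft_bijective a⁻¹)
  have s3 : ∑ a : G, ∑ c : G, ∑ b : G, ∑ w : G,
      beta χ (w * (a * a * (a⁻¹ * b * (a⁻¹ * b)))) b⁻¹ = n * (n * total χ) :=
    step χ (fun a _ b => a * a * (a⁻¹ * b * (a⁻¹ * b))) (fun a _ b => b⁻¹)
      (fun a _ => (Equiv.inv G).bijective)
  have s4 : ∑ a : G, ∑ b : G, ∑ c : G, ∑ w : G,
      beta χ (w * (a * a * (a⁻¹ * b * (a⁻¹ * b)) * (b⁻¹ * b⁻¹))) c = n * (n * total χ) :=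
    step χ (fun a b _ => a * a * (a⁻¹ * b * (a⁻¹ * b)) * (b⁻¹ * b⁻¹)) (fun _ _ c => c)
      (fun _ _ => Function.bijective_id)
  have s5 : ∑ a : G, ∑ b : G, ∑ c : G, ∑ w : G,
      beta χ (w * 1) (a * b * a⁻¹ * b⁻¹ * c * a⁻¹) = n * (n * total χ) :=
    step χ (fun a b _ => 1) (fun a b c => a * b * a⁻¹ * b⁻¹ * c * a⁻¹)
      (fun a b => (Group.mulRight_bijective a⁻¹).comp (Group.mulLeft_bijective (a * b * a⁻¹ * b⁻¹)))
  have s6 : ∑ a : G, ∑ b : G, ∑ c : G, ∑ w : G,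
      beta χ (w * (a * b * a⁻¹ * b⁻¹ * c * a⁻¹ * (a * b * a⁻¹ * b⁻¹ * c * a⁻¹)))
        (a * c⁻¹ * b * a) = n * (n * total χ) :=
    step χ (fun a b c => a * b * a⁻¹ * b⁻¹ * c * a⁻¹ * (a * b * a⁻¹ * b⁻¹ * c * a⁻¹))
      (fun a b c => a * c⁻¹ * b * a)
      (fun a b => (Group.mulRight_bijective a).comp ((Group.mulRight_bijective b).comp
        ((Group.mulLeft_bijective a).comp (Equiv.inv G).bijective)))
  have s7 : ∑ a : G, ∑ b : G, ∑ c : G, ∑ w : G,
      beta χ (w * (a * b * a⁻¹ * b⁻¹ * c * a⁻¹ * (a * b * a⁻¹ * b⁻¹ * c * a⁻¹)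
          * (a * c⁻¹ * b * a * (a * c⁻¹ * b * a)))) (a⁻¹ * b⁻¹ * c) = n * (n * total χ) :=
    step χ (fun a b c => a * b * a⁻¹ * b⁻¹ * c * a⁻¹ * (a * b * a⁻¹ * b⁻¹ * c * a⁻¹)
          * (a * c⁻¹ * b * a * (a * c⁻¹ * b * a))) (fun a b c => a⁻¹ * b⁻¹ * c)
      (fun a b => Group.mulLeft_bijective (a⁻¹ * b⁻¹))
  have t1 : ∑ a : G, ∑ b : G, ∑ c : G, ∑ w : G, beta χ w a = n * (n * total χ) := by
    rw [← s1]
    simp only [mul_one]
    rw [Finset.sum_comm]
    refine Finset.sum_congr rfl fun b _ => ?_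
    rw [Finset.sum_comm]
  have t2 : ∑ a : G, ∑ b : G, ∑ c : G, ∑ w : G, beta χ (w * (a * a)) (a⁻¹ * b)
      = n * (n * total χ) := by
    rw [← s2]
    refine Finset.sum_congr rfl fun a _ => ?_
    rw [Finset.sum_comm]
  have t3 : ∑ a : G, ∑ b : G, ∑ c : G, ∑ w : G,
      beta χ (w * (a * a) * (a⁻¹ * b * (a⁻¹ * b))) b⁻¹ = n * (n * total χ) := by
    rw [← s3]
    refine Finset.sum_congr rfl fun a _ => ?_
    rw [Finset.sum_comm]
    refine Finset.sum_congr rfl fun c _ => Finset.sum_congr rfl fun b _ =>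
      Finset.sum_congr rfl fun w _ => ?_
    rw [mul_assoc w]
  have t4 : ∑ a : G, ∑ b : G, ∑ c : G, ∑ w : G,
      beta χ (w * (a * a) * (a⁻¹ * b * (a⁻¹ * b)) * (b⁻¹ * b⁻¹)) c = n * (n * total χ) := by
    rw [← s4]
    refine Finset.sum_congr rfl fun a _ => Finset.sum_congr rfl fun b _ =>
      Finset.sum_congr rfl fun c _ => Finset.sum_congr rfl fun w _ => ?_
    rw [mul_assoc w, mul_assoc w]
  have t5 : ∑ a : G, ∑ b : G, ∑ c : G, ∑ w : G,
      beta χ w (a * b * a⁻¹ * b⁻¹ * c * a⁻¹) = n * (n * total χ) := by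
    rw [← s5]
    simp only [mul_one]
  have t7 : ∑ a : G, ∑ b : G, ∑ c : G, ∑ w : G,
      beta χ (w * (a * b * a⁻¹ * b⁻¹ * c * a⁻¹ * (a * b * a⁻¹ * b⁻¹ * c * a⁻¹))
          * (a * c⁻¹ * b * a * (a * c⁻¹ * b * a))) (a⁻¹ * b⁻¹ * c) = n * (n * total χ) := by
    rw [← s7]
    refine Finset.sum_congr rfl fun a _ => Finset.sum_congr rfl fun b _ =>
      Finset.sum_congr rfl fun c _ => Finset.sum_congr rfl fun w _ => ?_
    rw [mul_assoc w]
  have hle : ∑ a : G, ∑ b : G, ∑ c : G, ∑ w : G, 1 ≤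
      ∑ a : G, ∑ b : G, ∑ c : G, ∑ w : G, (beta χ w a + beta χ (w * (a * a)) (a⁻¹ * b)
      + beta χ (w * (a * a) * (a⁻¹ * b * (a⁻¹ * b))) b⁻¹
      + beta χ (w * (a * a) * (a⁻¹ * b * (a⁻¹ * b)) * (b⁻¹ * b⁻¹)) c
      + beta χ w (a * b * a⁻¹ * b⁻¹ * c * a⁻¹)
      + beta χ (w * (a * b * a⁻¹ * b⁻¹ * c * a⁻¹ * (a * b * a⁻¹ * b⁻¹ * c * a⁻¹))) (a * c⁻¹ * b * a)
      + beta χ (w * (a * b * a⁻¹ * b⁻¹ * c * a⁻¹ * (a * b * a⁻¹ * b⁻¹ * c * a⁻¹))
          * (a * c⁻¹ * b * a * (a * c⁻¹ * b * a))) (a⁻¹ * b⁻¹ * c)) :=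
    Finset.sum_le_sum fun a _ => Finset.sum_le_sum fun b _ => Finset.sum_le_sum fun c _ =>
      Finset.sum_le_sum fun w _ => seven χ w a b c
  simp only [Finset.sum_add_distrib] at hle
  rw [t1, t2, t3, t4, t5, s6, t7] at hle
  simp only [Finset.sum_const, Finset.card_univ, smul_eq_mul, mul_one, ← hn] at hle
  have h2 : n * n * (n * n) ≤ n * n * (7 * total χ) := by
    calc n * n * (n * n) = n * (n * (n * n)) := by ring
      _ ≤ _ := hle
      _ = n * n * (7 * total χ) := by ring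
  exact Nat.le_of_mul_le_mul_left h2 (by positivity)

theorem total_eq (χ : G → Fin 2) :
    total χ = ∑ c : G, ∑ x : G, if χ x = χ (c * x⁻¹ * c) then 1 else 0 := by
  unfold total beta
  rw [Finset.sum_comm]
  rw [Finset.sum_comm (f := fun c x => if χ x = χ (c * x⁻¹ * c) then 1 else 0)]
  refine Finset.sum_congr rfl fun p _ => ?_
  refine Fintype.sum_equiv (Equiv.mulLeft p) _ _ fun s => ?_
  have : (Equiv.mulLeft p) s * p⁻¹ * (Equiv.mulLeft p) s = p * (s * s) := by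
    simp [mul_assoc]
  rw [this]

theorem count_split (χ : G → Fin 2) (c : G) :
    (∑ x : G, if χ x = χ (c * x⁻¹ * c) then 1 else 0)
      = (univ.filter (fun x : G => χ x = 0 ∧ χ (c * x⁻¹ * c) = 0)).card
        + (univ.filter (fun x : G => χ x = 1 ∧ χ (c * x⁻¹ * c) = 1)).card := by
  rw [Finset.card_filter, Finset.card_filter, ← Finset.sum_add_distrib]
  refine Finset.sum_congr rfl fun x _ => ?_
  generalize χ x = u
  generalize χ (c * x⁻¹ * c) = v
  revert u v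
  decide

/-- Every 2-colouring of a finite group has a centre `c` and a colour `i` with at least `|G|/14`
elements `x` such that `x` and `c x⁻¹ c` have colour `i`. -/
theorem two_main (χ : G → Fin 2) :
    ∃ (c : G) (i : Fin 2),
      Fintype.card G ≤ 14 * (univ.filter (fun x : G => χ x = i ∧ χ (c * x⁻¹ * c) = i)).card := by
  by_contra hcon
  push Not at hcon
  set n := Fintype.card G with hn
  have hnpos : 0 < n := Fintype.card_pos
  have h1 := total_ge χ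
  rw [total_eq χ] at h1
  rw [← hn] at h1
  have h2 : ∀ c : G, 7 * (∑ x : G, if χ x = χ (c * x⁻¹ * c) then 1 else 0) < n := by
    intro c
    rw [count_split χ c]
    have a0 := hcon c 0
    have a1 := hcon c 1
    omega
  have h3 : ∑ c : G, 7 * (∑ x : G, if χ x = χ (c * x⁻¹ * c) then 1 else 0) < ∑ c : G, n :=
    Finset.sum_lt_sum_of_nonempty ⟨1, mem_univ _⟩ (fun c _ => h2 c)
  rw [← Finset.mul_sum] at h3
  simp only [Finset.sum_const, Finset.card_univ, smul_eq_mul, ← hn] at h3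
  exact absurd h1 (not_le.mpr h3)

end Pool.Agent.H109R2.MS
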